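import Pool.Agent.Helper30.Full.GoalsG
import Pool.Agent.Helper30.ProP.Assembly
import Pool.Agent.Helper51.ProP2.Rk

/-!
# Packet B6: torsion-free groups with an `FES` series have finite rank
-/

set_option autoImplicit false
set_option linter.unusedSectionVars false

namespace Pool.Agent.Helper96.Full

open Pool.Agent.Helper30.Full Pool.Agent.Helper85.ProP Pool.Agent.Helper30.ProP
  Pool.Agent.Helper85.ProC
open scoped commutatorElement

universe u

noncomputable section

section series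

variable {G : Type u} [Group G] [TopologicalSpace G]

/-- a series of closed normal subgroups with finitely generated abelian factors -/
structure FGS (k : ℕ) (Q : ℕ → Subgroup G) (M : Subgroup G) : Prop where
  zero : Q 0 = ⊥
  top : Q k = M
  nor : ∀ j, (Q j).Normal
  cl : ∀ j, IsClosed (Q j : Set G)
  le : ∀ j < k, Q j ≤ Q (j + 1)
  ab : ∀ j < k, ∀ a ∈ Q (j + 1), ∀ b ∈ Q (j + 1), cm a b ∈ Q j
  fg : ∀ j < k, FGmod (Q j) (Q (j + 1))

lemma FGS.mono {k : ℕ} {Q : ℕ → Subgroup G} {M : Subgroup G} (h : FGS k Q M) {i j : ℕ}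
    (hij : i ≤ j) (hj : j ≤ k) : Q i ≤ Q j := by
  induction j with
  | zero =>
    have : i = 0 := by omega
    rw [this]
  | succ j ih =>
    rcases Nat.lt_or_ge i (j + 1) with h1 | h1
    · exact (ih (by omega) (by omega)).trans (h.le j (by omega))
    · have : i = j + 1 := by omega
      rw [this]

end series

section top

variable {G : Type u} [Group G] [TopologicalSpace G] [IsTopologicalGroup G]
    [CompactSpace G] [T2Space G] [TotallyDisconnectedSpace G]

lemma RkMod_bot_bot : RkMod (⊥ : Subgroup G) ⊥ 0 := by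
  intro H _
  exact ⟨fun i => i.elim0, fun i => i.elim0, fun M _ h _ => h⟩

lemma FGS.rk {p : ℕ} [Fact p.Prime] (hp : PP p G) {k : ℕ} {Q : ℕ → Subgroup G} {M : Subgroup G}
    (h : FGS k Q M) : ∃ r, RkMod (⊥ : Subgroup G) M r := by
  have key : ∀ j ≤ k, ∃ r, RkMod (⊥ : Subgroup G) (Q j) r := by
    intro j
    induction j with
    | zero => intro _; rw [h.zero]; exact ⟨0, RkMod_bot_bot⟩
    | succ j ih =>
      intro hj
      obtain ⟨r, hr⟩ := ih (by omega)
      obtain ⟨s, hs⟩ := Pool.Agent.Helper51.ProP2.stmtRk p G hp (Q j) (Q (j + 1)) (h.nor _)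
        (h.cl _) (h.nor _) (h.cl _) (h.le j (by omega)) (h.ab j (by omega)) (h.fg j (by omega))
      exact ⟨s + r, hs.comp hr (h.le j (by omega))⟩
  rw [← h.top]
  exact key k le_rfl

/-- closed subgroups of pro-`p` groups are pro-`p` -/
lemma PP_closed {p : ℕ} [Fact p.Prime] (hp : PP p G) (M : Subgroup G) : PP p M := by
  intro U hU hUo
  obtain ⟨W, hW, hWU⟩ := isOpen_induced_iff.1 hUo
  have h1 : (1 : G) ∈ W := by
    have : (1 : M) ∈ (Subtype.val ⁻¹' W : Set M) := by rw [hWU]; exact U.one_mem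
    exact this
  obtain ⟨O, hO⟩ := ProfiniteGrp.exist_openNormalSubgroup_sub_open_nhds_of_one hW h1
  obtain ⟨n, hn⟩ := hp O.toSubgroup O.isNormal' O.isOpen'
  have h2 : (O.toSubgroup.subgroupOf M) ≤ U := by
    intro x hx
    have : x ∈ (Subtype.val ⁻¹' W : Set M) := hO hx
    rw [hWU] at this
    exact this
  have h3 : U.index ∣ (O.toSubgroup.subgroupOf M).index := Subgroup.index_dvd_of_le h2
  have h4 : (O.toSubgroup.subgroupOf M).index ∣ p ^ n := by
    rw [← hn]
    have hOn := O.isNormal'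
    exact Subgroup.relIndex_dvd_index_of_normal O.toSubgroup M
  obtain ⟨k, -, hk⟩ := (Nat.dvd_prime_pow (Fact.out : p.Prime)).1 (h3.trans h4)
  exact ⟨k, hk⟩

/-! ### the module -/

/-- topological finite generation of additive groups -/
def FGA (V : Type u) [AddCommGroup V] [TopologicalSpace V] : Prop :=
  ∃ F : Finset V, ∀ U : AddSubgroup V, IsClosed (U : Set V) → (F : Set V) ⊆ (U : Set V) → U = ⊤

lemma fga_CC (D : Sec G) (h : FGmod D.K D.L) : FGA (CC D) := by
  classical
  obtain ⟨F, hF, hF'⟩ := h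
  refine ⟨F.image (pr D), fun U hU hFU => ?_⟩
  have h1 : D.L ≤ toG U := by
    refine hF' _ (toG_closed U hU) ?_ ?_
    · intro a ha
      refine mem_toG.2 ⟨D.KL ha, ?_⟩
      rw [(mkC_eq_zero (D.KL ha)).2 ha]
      exact U.zero_mem
    · intro a ha
      refine mem_toG.2 ⟨hF ha, ?_⟩
      rw [← pr_eq D (hF ha)]
      exact hFU (Finset.mem_coe.2 (Finset.mem_image_of_mem _ ha))
  rw [eq_top_iff]
  intro b _
  obtain ⟨a, ha, rfl⟩ := mkC_surj b
  obtain ⟨_, h2⟩ := mem_toG.1 (h1 ha)
  exact h2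

lemma fga_pi {k : ℕ} (V : Fin k → Type u) [∀ j, AddCommGroup (V j)]
    [∀ j, TopologicalSpace (V j)] (h : ∀ j, FGA (V j)) : FGA (∀ j, V j) := by
  classical
  choose F hF using h
  refine ⟨Finset.univ.biUnion fun j => (F j).image (Pi.single j), fun U hU hFU => ?_⟩
  have h1 : ∀ j, ∀ b : V j, Pi.single j b ∈ U := by
    intro j b
    have h2 : IsClosed ((U.comap (AddMonoidHom.single V j) : AddSubgroup (V j)) : Set (V j)) :=
      hU.preimage (continuous_single j)
    have h3 := hF j (U.comap (AddMonoidHom.single V j)) h2 (by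
      intro x hx
      refine hFU ?_
      simp only [Finset.coe_biUnion, Set.mem_iUnion, Finset.mem_coe, Finset.mem_univ,
        Finset.coe_image]
      exact ⟨j, trivial, x, hx, rfl⟩)
    have h4 : b ∈ U.comap (AddMonoidHom.single V j) := by rw [h3]; trivial
    exact h4
  rw [eq_top_iff]
  intro v _
  rw [← Finset.univ_sum_single v]
  exact U.sum_mem fun j _ => h1 j _

lemma basis_pi (p : ℕ) {k : ℕ} (V : Fin k → Type u) [∀ j, AddCommGroup (V j)]
    [∀ j, TopologicalSpace (V j)]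
    (h : ∀ j, ∀ W : Set (V j), IsOpen W → (0 : V j) ∈ W → ∃ U : AddSubgroup (V j),
      IsOpen (U : Set (V j)) ∧ (U : Set (V j)) ⊆ W ∧ ∃ n : ℕ, ∀ b : V j, p ^ n • b ∈ U)
    (W : Set (∀ j, V j)) (hW : IsOpen W) (h0 : (0 : ∀ j, V j) ∈ W) :
    ∃ U : AddSubgroup (∀ j, V j), IsOpen (U : Set (∀ j, V j)) ∧ (U : Set (∀ j, V j)) ⊆ W ∧
      ∃ n : ℕ, ∀ b : ∀ j, V j, p ^ n • b ∈ U := by
  classical
  obtain ⟨w, hw, hw'⟩ := isOpen_pi_iff'.1 hW 0 h0
  have h1 : ∀ j, ∃ U : AddSubgroup (V j), IsOpen (U : Set (V j)) ∧ (U : Set (V j)) ⊆ w j ∧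
      ∃ n : ℕ, ∀ b : V j, p ^ n • b ∈ U := fun j => h j (w j) (hw j).1 (hw j).2
  choose U hU hUw n hn using h1
  refine ⟨AddSubgroup.pi Set.univ U, ?_, ?_, ∑ j, n j, ?_⟩
  · exact isOpen_set_pi Set.finite_univ fun j _ => hU j
  · intro x hx
    exact hw' fun j _ => hUw j (hx j trivial)
  · intro b j _
    have h2 : n j ≤ ∑ i, n i := Finset.single_le_sum (fun i _ => Nat.zero_le _) (Finset.mem_univ j)
    show p ^ (∑ i, n i) • b j ∈ U j
    rw [← Nat.sub_add_cancel h2, pow_add, mul_smul]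
    exact (U j).nsmul_mem (hn j _) _

section act

variable {k : ℕ} (D : Fin k → Sec G)

/-- the product of the sections -/
abbrev VV : Type u := ∀ j, CC (D j)

/-- the action on the product -/
def sgv : G →* AddMonoid.End (VV D) where
  toFun g := AddMonoidHom.mk' (fun v j => sg (D j) g (v j)) fun v w => by
    funext j; exact map_add _ _ _
  map_one' := by
    ext v j
    show sg (D j) 1 (v j) = v j
    rw [map_one]; rfl
  map_mul' g h := by
    ext v j
    show sg (D j) (g * h) (v j) = sg (D j) g (sg (D j) h (v j))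
    rw [map_mul]; rfl

lemma sgv_apply (g : G) (v : VV D) (j : Fin k) : sgv D g v j = sg (D j) g (v j) := rfl

lemma cont_sgv : Continuous fun x : G × VV D => sgv D x.1 x.2 := by
  refine continuous_pi fun j => ?_
  have h1 : Continuous fun x : G × VV D => (x.1, x.2 j) :=
    continuous_fst.prodMk ((continuous_apply j).comp continuous_snd)
  generalize hf : (fun x : G × CC (D j) => sg (D j) x.1 x.2) = f
  have h2 : Continuous f := by rw [← hf]; exact cont_sg (D j)
  have h3 : (fun x : G × VV D => sgv D x.1 x.2 j) = f ∘ fun x : G × VV D => (x.1, x.2 j) := by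
    rw [← hf]; rfl
  rw [h3]
  exact h2.comp h1

lemma sgv_triv_iff (g : G) : (∀ v, sgv D g v = v) ↔ ∀ j, ∀ x ∈ (D j).L, cm g x ∈ (D j).K := by
  classical
  constructor
  · intro h j x hx
    have h1 := congrFun (h (Pi.single j (mkC hx))) j
    rw [sgv_apply, Pi.single_eq_same, sg_apply, cj_mk, mkC_eq] at h1
    have h2 : x * ((g * x * g⁻¹)⁻¹ * x)⁻¹ * x⁻¹ ∈ (D j).K :=
      (D j).Kn.conj_mem _ ((D j).K.inv_mem h1) x
    have h3 : x * ((g * x * g⁻¹)⁻¹ * x)⁻¹ * x⁻¹ = cm g x := by
      unfold cm; group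
    rwa [h3] at h2
  · intro h v
    funext j
    obtain ⟨x, hx, e⟩ := mkC_surj (v j)
    rw [sgv_apply, ← e, sg_apply, cj_mk, mkC_eq]
    have h2 : x⁻¹ * (cm g x)⁻¹ * x⁻¹⁻¹ ∈ (D j).K :=
      (D j).Kn.conj_mem _ ((D j).K.inv_mem (h j x hx)) x⁻¹
    have h3 : x⁻¹ * (cm g x)⁻¹ * x⁻¹⁻¹ = (g * x * g⁻¹)⁻¹ * x := by
      unfold cm; group
    rwa [h3] at h2

end act

/-- the kernel in `M` -/
def M1 {k : ℕ} (D : Fin k → Sec G) (M : Subgroup G) : Subgroup G := M ⊓ (sgv D).ker

lemma mem_M1 {k : ℕ} {D : Fin k → Sec G} {M : Subgroup G} {g : G} :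
    g ∈ M1 D M ↔ g ∈ M ∧ ∀ v, sgv D g v = v := by
  unfold M1
  rw [Subgroup.mem_inf, MonoidHom.mem_ker]
  refine and_congr Iff.rfl ⟨fun h v => ?_, fun h => ?_⟩
  · rw [h]; rfl
  · ext v; rw [h]; rfl

lemma closed_M1 {k : ℕ} (D : Fin k → Sec G) (M : Subgroup G) (hM : IsClosed (M : Set G)) :
    IsClosed (M1 D M : Set G) := by
  have h1 : (M1 D M : Set G) = (M : Set G) ∩ ⋂ v, {g | sgv D g v = v} := by
    ext g
    rw [SetLike.mem_coe, mem_M1]
    simp
  rw [h1]
  refine hM.inter (isClosed_iInter fun v => isClosed_eq ?_ continuous_const)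
  have h2 : Continuous fun g : G => ((g, v) : G × VV D) := Continuous.prodMk_left v
  generalize hf : (fun x : G × VV D => sgv D x.1 x.2) = f
  have h3 : Continuous f := by rw [← hf]; exact cont_sgv D
  have h4 : (fun g : G => sgv D g v) = f ∘ fun g : G => ((g, v) : G × VV D) := by
    rw [← hf]; rfl
  rw [h4]
  exact h3.comp h2

end top

/-- the step -/
theorem stepB6 (hL : StmtLin.{u}) (hN : StmtNT.{u}) {p : ℕ} [Fact p.Prime] {G : Type u} [Group G]
    [TopologicalSpace G] [IsTopologicalGroup G] [CompactSpace G] [T2Space G]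
    [TotallyDisconnectedSpace G] (hp : PP p G)
    (htf : ∀ (g : G) (n : ℕ), 0 < n → g ^ n = 1 → g = 1) {k : ℕ} {Q : ℕ → Subgroup G}
    {N M : Subgroup G} (h : FGS k Q N) (_hNM : N ≤ M) (hMc : IsClosed (M : Set G))
    (hab : ∀ a ∈ M, ∀ b ∈ M, cm a b ∈ N) (hex : ∀ a ∈ M, a ^ p ∈ N) : FGmod N M := by
  classical
  have hNn : N.Normal := by rw [← h.top]; exact h.nor _
  have hNc : IsClosed (N : Set G) := by rw [← h.top]; exact h.cl _
  let D : Fin k → Sec G := fun j =>
    { K := Q j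
      L := Q (j + 1)
      Kn := h.nor _
      Kc := h.cl _
      Ln := h.nor _
      Lc := h.cl _
      KL := h.le j j.2
      ab := h.ab j j.2 }
  have : CompactSpace M := isCompact_iff_compactSpace.1 hMc.isCompact
  -- (1)
  have hLin := hL p M (VV D) ((sgv D).comp M.subtype) (by
    have h1 : Continuous fun x : M × VV D => ((x.1 : G), x.2) :=
      (continuous_subtype_val.comp continuous_fst).prodMk continuous_snd
    generalize hf : (fun x : G × VV D => sgv D x.1 x.2) = f
    have h3 : Continuous f := by rw [← hf]; exact cont_sgv D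
    have h4 : (fun x : M × VV D => ((sgv D).comp M.subtype) x.1 x.2) =
        f ∘ fun x : M × VV D => ((x.1 : G), x.2) := by
      rw [← hf]; rfl
    rw [h4]
    exact h3.comp h1)
    (basis_pi p _ fun j W hW h0 => by
      obtain ⟨U, h1, h2, _, h4⟩ := basis_sg (D j) p hp W hW h0
      exact ⟨U, h1, h2, h4⟩)
    (fga_pi _ fun j => fga_CC (D j) (h.fg j j.2))
    (N.subgroupOf M) inferInstance (hNc.preimage continuous_subtype_val)
    (fun a => hex a a.2)
  obtain ⟨W, hWo, hW⟩ := hLin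
  -- (2)
  have hM1M : M1 D M ≤ M := inf_le_left
  have hM1c := closed_M1 D M hMc
  have : CompactSpace (M1 D M) := isCompact_iff_compactSpace.1 hM1c.isCompact
  have hM1 : ∀ g ∈ M1 D M, ∀ j < k, ∀ x ∈ Q (j + 1), cm g x ∈ Q j := by
    intro g hg j hj x hx
    exact (sgv_triv_iff D g).1 (mem_M1.1 hg).2 ⟨j, hj⟩ x hx
  have hnil : Group.IsNilpotent (M1 D M) := by
    rw [Subgroup.nilpotent_iff_finite_ascending_central_series]
    let Hs : ℕ → Subgroup (M1 D M) := fun m => if m ≤ k then (Q m).subgroupOf (M1 D M) else ⊤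
    have e1 : ∀ m ≤ k, Hs m = (Q m).subgroupOf (M1 D M) := fun m hm => if_pos hm
    have e2 : ∀ m, k < m → Hs m = ⊤ := fun m hm => if_neg (by omega)
    refine ⟨k + 1, Hs, ⟨?_, ?_⟩, e2 _ (by omega)⟩
    · rw [e1 0 (Nat.zero_le k), h.zero]
      exact Subgroup.bot_subgroupOf _
    · intro x n hx g
      have hcm : ((⁅x, g⁆ : M1 D M) : G) = (cm (g : G) (x : G))⁻¹ := by
        show (x : G) * g * (x : G)⁻¹ * (g : G)⁻¹ = (cm (g : G) (x : G))⁻¹
        unfold cm; group
      rcases Nat.lt_trichotomy n k with h1 | h1 | h1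
      · rw [e1 _ (show n + 1 ≤ k by omega)] at hx
        rw [e1 _ h1.le, Subgroup.mem_subgroupOf, hcm]
        exact (Q n).inv_mem (hM1 g g.2 n h1 x (Subgroup.mem_subgroupOf.1 hx))
      · rw [e1 _ h1.le, Subgroup.mem_subgroupOf, hcm, h1, h.top]
        exact N.inv_mem (hab g (hM1M g.2) x (hM1M x.2))
      · rw [e2 _ h1]
        trivial
  obtain ⟨r, hr⟩ := h.rk hp
  have hFGG : FGG (M1 D M) := by
    refine hN p (M1 D M) (PP_closed hp _) hnil ?_ (N.subgroupOf (M1 D M)) inferInstance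
      (hNc.preimage continuous_subtype_val) (fun a => hex a (hM1M a.2)) ?_
    · intro g n hn hg
      have := htf (g : G) n hn (by rw [← Subgroup.coe_pow, hg]; rfl)
      exact Subtype.ext this
    · intro K' hK'c hK'N
      have hKc : IsClosed ((K'.map (M1 D M).subtype : Subgroup G) : Set G) :=
        hM1c.isClosedEmbedding_subtypeVal.isClosedMap _ hK'c
      obtain ⟨t, ht, ht'⟩ := hr (K'.map (M1 D M).subtype) hKc
      have ht2 : ∀ i, ∃ s : M1 D M, s ∈ K' ∧ (s : G) = t i := fun i => (ht i).1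
      choose s hs hs' using ht2
      refine ⟨Finset.univ.image s, ?_, ?_⟩
      · intro x hx
        obtain ⟨i, -, rfl⟩ := Finset.mem_image.1 (Finset.mem_coe.1 hx)
        exact hs i
      · intro H hH _ hsH x hx
        have hHc : IsClosed ((H.map (M1 D M).subtype : Subgroup G) : Set G) :=
          hM1c.isClosedEmbedding_subtypeVal.isClosedMap _ hH
        have h1 := ht' (H.map (M1 D M).subtype) hHc (by rw [inf_bot_eq]; exact bot_le) (fun i =>
          ⟨s i, hsH (Finset.mem_coe.2 (Finset.mem_image_of_mem _ (Finset.mem_univ i))), hs' i⟩)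
        obtain ⟨y, hy, hyx⟩ := h1 ⟨⟨x, hx, rfl⟩, hK'N hx⟩
        have : y = x := Subtype.ext hyx
        rw [← this]; exact hy
  obtain ⟨S, hS⟩ := hFGG
  -- (3)
  have hWfin : Finite (M ⧸ W) := Subgroup.quotient_finite_of_isOpen W hWo
  have := Fintype.ofFinite (M ⧸ W)
  refine ⟨(S.image (fun x : M1 D M => (x : G))) ∪
    (Finset.univ.image fun q : M ⧸ W => ((Quotient.out q : M) : G)), ?_, ?_⟩
  · intro x hx
    rw [Finset.mem_coe, Finset.mem_union, Finset.mem_image, Finset.mem_image] at hx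
    rcases hx with ⟨y, _, rfl⟩ | ⟨q, _, rfl⟩
    · exact hM1M y.2
    · exact (Quotient.out q : M).2
  · intro H hH hNH hF
    have h1 : M1 D M ≤ H := by
      have h2 : (⊤ : Subgroup (M1 D M)) ≤ H.subgroupOf (M1 D M) := by
        rw [← hS]
        refine Subgroup.topologicalClosure_minimal _ ?_ (hH.preimage continuous_subtype_val)
        rw [Subgroup.closure_le]
        intro x hx
        exact hF (Finset.mem_coe.2 (Finset.mem_union_left _ (Finset.mem_image_of_mem _ hx)))
      intro x hx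
      exact h2 (Subgroup.mem_top (⟨x, hx⟩ : M1 D M))
    have h3 : ∀ w ∈ W, (w : G) ∈ H := by
      intro w hw
      obtain ⟨a, ha, ha'⟩ := hW w hw
      have h4 : ((a * w : M) : G) ∈ M1 D M := mem_M1.2 ⟨(a * w).2, fun v => ha' v⟩
      have h5 : (a : G)⁻¹ * ((a * w : M) : G) ∈ H := H.mul_mem (H.inv_mem (hNH ha)) (h1 h4)
      rwa [Subgroup.coe_mul, inv_mul_cancel_left] at h5
    intro m hm
    set q : M ⧸ W := QuotientGroup.mk ⟨m, hm⟩ with hq
    have h6 : ((Quotient.out q : M) : G) ∈ H :=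
      hF (Finset.mem_coe.2 (Finset.mem_union_right _ (Finset.mem_image_of_mem _ (Finset.mem_univ q))))
    have h7 : (Quotient.out q : M)⁻¹ * ⟨m, hm⟩ ∈ W := by
      rw [← QuotientGroup.eq]
      exact Quotient.out_eq' q
    have h8 := H.mul_mem h6 (h3 _ h7)
    have h9 : ((Quotient.out q : M) : G) * (((Quotient.out q : M)⁻¹ * ⟨m, hm⟩ : M) : G) = m := by
      show ((Quotient.out q : M) : G) * (((Quotient.out q : M) : G)⁻¹ * m) = m
      rw [mul_inv_cancel_left]
    rwa [h9] at h8

theorem stmtB6 (hL : StmtLin.{u}) (hN : StmtNT.{u}) : StmtB6.{u} := by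
  intro p _ G _ _ _ _ _ _ hp htf n hn
  obtain ⟨N, hN0, hNn, hNc, hNs⟩ := hn
  have key : ∀ i ≤ n, ∃ k Q, FGS k Q (N i) := by
    intro i
    induction i with
    | zero =>
      intro _
      refine ⟨0, fun _ => ⊥, rfl, hN0.symm, fun _ => inferInstance, fun _ => ?_, ?_, ?_, ?_⟩
      · rw [Subgroup.coe_bot]; exact isClosed_singleton
      · intro j hj; omega
      · intro j hj; omega
      · intro j hj; omega
    | succ i ih =>
      intro hi
      obtain ⟨k, Q, hQ⟩ := ih (by omega)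
      obtain ⟨h1, h2, h3⟩ := hNs i (by omega)
      have h4 : FGmod (N i) (N (i + 1)) := by
        rcases h3 with h3 | h3
        · exact stepB6 hL hN hp htf hQ h1 (hNc (i + 1)).2 h2 h3
        · exact h3
      let Hs : ℕ → Subgroup G := fun j => if j ≤ k then Q j else N (i + 1)
      have e1 : ∀ m ≤ k, Hs m = Q m := fun m hm => if_pos hm
      have e2 : ∀ m, k < m → Hs m = N (i + 1) := fun m hm => if_neg (by omega)
      refine ⟨k + 1, Hs, ?_, ?_, ?_, ?_, ?_, ?_, ?_⟩
      · rw [e1 _ (Nat.zero_le k)]; exact hQ.zero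
      · rw [e2 _ (by omega)]
      · intro j
        rcases Nat.lt_or_ge k j with h5 | h5
        · rw [e2 _ h5]; exact (hNc _).1
        · rw [e1 _ h5]; exact hQ.nor j
      · intro j
        rcases Nat.lt_or_ge k j with h5 | h5
        · rw [e2 _ h5]; exact (hNc _).2
        · rw [e1 _ h5]; exact hQ.cl j
      · intro j hj
        rcases Nat.lt_or_ge j k with h5 | h5
        · rw [e1 _ h5.le, e1 _ (show j + 1 ≤ k by omega)]
          exact hQ.le j h5
        · have h6 : j = k := by omega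
          rw [h6, e1 _ le_rfl, e2 _ (by omega), hQ.top]
          exact h1
      · intro j hj
        rcases Nat.lt_or_ge j k with h5 | h5
        · rw [e1 _ h5.le, e1 _ (show j + 1 ≤ k by omega)]
          exact hQ.ab j h5
        · have h6 : j = k := by omega
          rw [h6, e1 _ le_rfl, e2 _ (by omega), hQ.top]
          exact h2
      · intro j hj
        rcases Nat.lt_or_ge j k with h5 | h5
        · rw [e1 _ h5.le, e1 _ (show j + 1 ≤ k by omega)]
          exact hQ.fg j h5
        · have h6 : j = k := by omega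
          rw [h6, e1 _ le_rfl, e2 _ (by omega), hQ.top]
          exact h4
  obtain ⟨k, Q, hQ⟩ := key n le_rfl
  rw [hNn] at hQ
  obtain ⟨r, hr⟩ := hQ.rk hp
  exact hr.finRank

end

end Pool.Agent.Helper96.Full
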