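import Pool.Agent.Helper30.Full.GoalsW
import Pool.Agent.Helper30.Full.Conf

/-!
# Packet Pad: the lower bound for small elements
-/

set_option autoImplicit false
set_option linter.unusedSectionVars false

namespace Pool.Agent.Helper96.Full

open Pool.Agent.Helper30.Full

universe u

noncomputable section

variable {p : ℕ} [Fact p.Prime] {d : ℕ} {X : Type u} [AddCommGroup X] [TopologicalSpace X]
  [IsTopologicalAddGroup X] [CompactSpace X] [T2Space X] (b : Act p d X)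

lemma psi_apply (g : Fin d → ℤ_[p]) (n : ℕ) (x : X) :
    Psi b g n x = ∑ i ∈ Finset.range p, b.σ ((i * p ^ n) • g) x := by
  unfold Psi
  exact AddMonoidHom.finsetSum_apply _ _ _

lemma cont_psi (g : Fin d → ℤ_[p]) (n : ℕ) : Continuous fun x : X => Psi b g n x := by
  simp only [psi_apply]
  exact continuous_finsetSum _ fun i _ => cont_σ b _

lemma psi_comm (g : Fin d → ℤ_[p]) (n : ℕ) (k : Fin d → ℤ_[p]) (x : X) :
    Psi b g n (b.σ k x) = b.σ k (Psi b g n x) := by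
  rw [psi_apply, psi_apply, map_sum]
  exact Finset.sum_congr rfl fun i _ => σ_comm_apply b _ _ _

/-- `T_h X + Ψ_n(g) X` -/
def TP (g : Fin d → ℤ_[p]) (n : ℕ) (h : Fin d → ℤ_[p]) : AddSubgroup X :=
  AddMonoidHom.range (b.T h) ⊔ AddMonoidHom.range (Psi b g n)

lemma mem_TP {g : Fin d → ℤ_[p]} {n : ℕ} {h : Fin d → ℤ_[p]} {x : X} :
    x ∈ TP b g n h ↔ ∃ y z, x = b.T h y + Psi b g n z := by
  unfold TP
  rw [AddSubgroup.mem_sup]
  constructor
  · rintro ⟨_, ⟨y, rfl⟩, _, ⟨z, rfl⟩, rfl⟩; exact ⟨y, z, rfl⟩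
  · rintro ⟨y, z, rfl⟩; exact ⟨_, ⟨y, rfl⟩, _, ⟨z, rfl⟩, rfl⟩

lemma closed_psi (g : Fin d → ℤ_[p]) (n : ℕ) :
    IsClosed ((AddMonoidHom.range (Psi b g n)) : Set X) := by
  have h1 : ((AddMonoidHom.range (Psi b g n)) : Set X) = Set.range fun x : X => Psi b g n x := by
    ext x; rfl
  rw [h1]
  exact (isCompact_range (cont_psi b g n)).isClosed

lemma closed_TP (g : Fin d → ℤ_[p]) (n : ℕ) (h : Fin d → ℤ_[p]) :
    IsClosed (TP b g n h : Set X) :=
  closed_sup' (closed_rangeT b h) (closed_psi b g n)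

lemma inv_TP (g : Fin d → ℤ_[p]) (n : ℕ) (h : Fin d → ℤ_[p]) :
    ∀ k, ∀ y ∈ TP b g n h, b.σ k y ∈ TP b g n h := by
  intro k y hy
  obtain ⟨u, v, rfl⟩ := (mem_TP b).1 hy
  exact (mem_TP b).2 ⟨b.σ k u, b.σ k v, by rw [map_add, T_comm_σ_apply, psi_comm]⟩

/-- step 1 -/
lemma step1 (hW3 : StmtW3.{u}) (g h₀ : Fin d → ℤ_[p]) (i c : ℕ)
    (hq : ∀ x, ∃ y z, (b.T g ^ c) (p ^ i • x) = p ^ (i + 1) • y + b.T h₀ z) (n : ℕ)
    (hn : c ≤ n) (x : X) : ∃ y z, p ^ (i + 1) • x = b.T h₀ y + Psi b g n z := by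
  have hp := (Fact.out : p.Prime)
  have hN : c < p ^ n * (p - 1) := by
    have h1 : n < p ^ n := Nat.lt_pow_self hp.one_lt
    have h2 : 1 ≤ p - 1 := by have := hp.two_le; omega
    calc c ≤ n := hn
      _ < p ^ n := h1
      _ ≤ p ^ n * (p - 1) := Nat.le_mul_of_pos_right _ h2
  set N := p ^ n * (p - 1) with hNdef
  have hcl := closed_TP b g n h₀
  have hinv := inv_TP b g n h₀
  have : IsClosed (TP b g n h₀ : Set X) := hcl
  set b' := b.quot (TP b g n h₀) hinv with hb'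
  have hPsi : ∀ x, Psi b' g n x = 0 := by
    intro x
    obtain ⟨x, rfl⟩ := QuotientAddGroup.mk_surjective x
    have h1 : Psi b' g n (x : X ⧸ TP b g n h₀) = ((Psi b g n x : X) : X ⧸ TP b g n h₀) := by
      rw [psi_apply, psi_apply]
      have : ((∑ i ∈ Finset.range p, b.σ ((i * p ^ n) • g) x : X) : X ⧸ TP b g n h₀) =
          QuotientAddGroup.mk' (TP b g n h₀) (∑ i ∈ Finset.range p, b.σ ((i * p ^ n) • g) x) := rfl
      rw [this, map_sum]
      rfl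
    rw [h1]
    exact (QuotientAddGroup.eq_zero_iff _).2 ((mem_TP b).2 ⟨0, x, by rw [map_zero, zero_add]⟩)
  have hT0 : ∀ x, b'.T h₀ x = 0 := by
    intro x
    obtain ⟨x, rfl⟩ := QuotientAddGroup.mk_surjective x
    rw [hb', quot_T]
    exact (QuotientAddGroup.eq_zero_iff _).2 ((mem_TP b).2 ⟨x, 0, by rw [map_zero, add_zero]⟩)
  have hC := hW3 p d (X ⧸ TP b g n h₀) b' g n hPsi
  have hq' : ∀ x, ∃ y, (b'.T g ^ c) (p ^ i • x) = p ^ (i + 1) • y := by
    intro x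
    obtain ⟨x, rfl⟩ := QuotientAddGroup.mk_surjective x
    obtain ⟨y, z, e⟩ := hq x
    refine ⟨(y : X ⧸ TP b g n h₀), ?_⟩
    have h1 : (p ^ i • (x : X ⧸ TP b g n h₀)) = ((p ^ i • x : X) : X ⧸ TP b g n h₀) := rfl
    have h2 : (p ^ (i + 1) • (y : X ⧸ TP b g n h₀)) = ((p ^ (i + 1) • y : X) : X ⧸ TP b g n h₀) :=
      rfl
    rw [h1, h2, hb', quot_Tpow, e]
    have h3 := hT0 (z : X ⧸ TP b g n h₀)
    rw [hb', quot_T] at h3
    rw [QuotientAddGroup.mk_add, h3, add_zero]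
  -- the subgroup `p^i E`
  let Y0 : AddSubgroup (X ⧸ TP b g n h₀) := (nsmulAddMonoidHom (α := X ⧸ TP b g n h₀) (p ^ i)).range
  have hY0 : ∀ k, ∀ y ∈ Y0, b'.σ k y ∈ Y0 := by
    rintro k _ ⟨y, rfl⟩
    exact ⟨b'.σ k y, by show p ^ i • b'.σ k y = b'.σ k (p ^ i • y); rw [map_nsmul]⟩
  let Y : AddSubgroup (X ⧸ TP b g n h₀) := Y0.map (b'.T g ^ c)
  have key : Y ≤ ⊥ := by
    refine nakayama b' g Y ⊥ ?_ ?_ ?_
    · have : ((⊥ : AddSubgroup (X ⧸ TP b g n h₀)) : Set (X ⧸ TP b g n h₀)) = {0} := rfl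
      rw [this]
      exact isClosed_singleton
    · intro z hz
      rw [AddSubgroup.mem_bot] at hz ⊢
      rw [hz, map_zero]
    · rintro _ ⟨_, ⟨x, rfl⟩, rfl⟩
      obtain ⟨y, hy⟩ := hq' x
      obtain ⟨z, hz, hz'⟩ := hC.p1 Y0 hY0 (p ^ i • y) ⟨y, rfl⟩
      refine ⟨0, AddSubgroup.zero_mem _, (b'.T g ^ (N - c - 1)) ((b'.T g ^ c) z), ?_, 0,
        AddSubgroup.zero_mem _, ?_⟩
      · have hT : ∀ y ∈ Y, b'.T g y ∈ Y := by
          rintro _ ⟨y, hy, rfl⟩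
          refine ⟨b'.T g y, T_smul_mem b' Y0 hY0 g y hy, ?_⟩
          show (b'.T g ^ c * b'.T g) y = (b'.T g * b'.T g ^ c) y
          rw [← pow_succ, ← pow_succ']
        exact Tpow_mem b' Y g hT _ _ ⟨z, hz, rfl⟩
      · have h1 : (b'.T g ^ c) (nsmulAddMonoidHom (α := X ⧸ TP b g n h₀) (p ^ i) x) =
            p ^ (i + 1) • y := hy
        have h2 : p ^ (i + 1) • y = p • (p ^ i • y) := by rw [pow_succ', mul_smul]
        have h3 : b'.T g ((b'.T g ^ (N - c - 1)) ((b'.T g ^ c) z)) = (b'.T g ^ N) z := by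
          have : (b'.T g * b'.T g ^ (N - c - 1) * b'.T g ^ c) z = (b'.T g ^ N) z := by
            rw [← pow_succ', ← pow_add]
            congr 2
            omega
          exact this
        show (b'.T g ^ c) (p ^ i • x) = 0 + b'.T g ((b'.T g ^ (N - c - 1)) ((b'.T g ^ c) z)) +
          p • (0 : X ⧸ TP b g n h₀)
        rw [hy, h2, hz', h3, smul_zero, zero_add, add_zero]
  have fin : ∀ y : X ⧸ TP b g n h₀, p ^ (i + 1) • y = 0 := by
    intro y
    obtain ⟨z, hz, hz'⟩ := hC.p1 Y0 hY0 (p ^ i • y) ⟨y, rfl⟩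
    have h2 : p ^ (i + 1) • y = p • (p ^ i • y) := by rw [pow_succ', mul_smul]
    have h3 : (b'.T g ^ c) z = 0 := by
      have := key ⟨z, hz, rfl⟩
      rwa [AddSubgroup.mem_bot] at this
    have h4 : (b'.T g ^ N) z = (b'.T g ^ (N - c)) ((b'.T g ^ c) z) := by
      have : (b'.T g ^ N) z = (b'.T g ^ (N - c) * b'.T g ^ c) z := by
        rw [← pow_add]
        congr 2
        omega
      exact this
    rw [h2, hz', h4, h3, map_zero]
  have h5 := fin (x : X ⧸ TP b g n h₀)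
  have h6 : (p ^ (i + 1) • (x : X ⧸ TP b g n h₀)) = ((p ^ (i + 1) • x : X) : X ⧸ TP b g n h₀) := rfl
  rw [h6, QuotientAddGroup.eq_zero_iff] at h5
  exact (mem_TP b).1 h5

/-- step 2: local constancy -/
lemma step2 (g h₀ r : Fin d → ℤ_[p]) (C n : ℕ)
    (hC : ∀ x, ∃ y z, p ^ C • x = b.T h₀ y + Psi b g n z)
    (hr : ∀ x, ∃ y, b.T r x = p ^ 2 • y) (hSq : SqW b r) (x : X) :
    ∃ y z, p ^ C • x = b.T (h₀ + p ^ C • r) y + Psi b g n z := by
  have key : AddMonoidHom.range (b.T h₀) ≤ TP b g n (h₀ + p ^ C • r) := by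
    refine nakayama b 0 _ _ (closed_TP b g n _) ?_ ?_
    · intro z _
      rw [T_zero]; exact AddSubgroup.zero_mem _
    · rintro _ ⟨x, rfl⟩
      obtain ⟨y, hy⟩ := (hSq C x).1
      obtain ⟨y', hy'⟩ := hr y
      obtain ⟨u, v, e⟩ := hC y'
      refine ⟨b.T (h₀ + p ^ C • r) x - Psi b g n (b.σ h₀ (p ^ 2 • v)), ?_, 0,
        AddSubgroup.zero_mem _, - b.T h₀ (p • b.σ h₀ u), AddSubgroup.neg_mem _ ⟨_, rfl⟩, ?_⟩
      · exact (mem_TP b).2 ⟨x, - b.σ h₀ (p ^ 2 • v), by rw [map_neg]; abel⟩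
      · have h1 : b.T (p ^ C • r) x = p ^ 2 • (b.T h₀ u + Psi b g n v) := by
          rw [hy, hy', ← e, smul_comm]
        have h2 : b.σ h₀ (p ^ 2 • (b.T h₀ u + Psi b g n v)) =
            p ^ 2 • b.T h₀ (b.σ h₀ u) + Psi b g n (b.σ h₀ (p ^ 2 • v)) := by
          rw [map_nsmul, map_add, ← psi_comm, ← T_comm_σ_apply, smul_add, map_nsmul, map_nsmul]
        have h3 : p • -b.T h₀ (p • b.σ h₀ u) = -(p ^ 2 • b.T h₀ (b.σ h₀ u)) := by
          rw [map_nsmul, smul_neg, ← mul_smul, ← pow_two]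
        show b.T h₀ x = b.T (h₀ + p ^ C • r) x - Psi b g n (b.σ h₀ (p ^ 2 • v)) + b.T 0 0 +
          p • -b.T h₀ (p • b.σ h₀ u)
        rw [T_add_apply, h1, h2, h3, map_zero]
        abel
  obtain ⟨y, z, e⟩ := hC x
  obtain ⟨y', z', e'⟩ := (mem_TP b).1 (key ⟨y, rfl⟩)
  replace e' : b.T h₀ y = b.T (h₀ + p ^ C • r) y' + Psi b g n z' := e'
  exact ⟨y', z' + z, by rw [e, e', map_add]; abel⟩

theorem stmtPad (hW3 : StmtW3.{u}) (hSq : StmtSq.{u}) : StmtPad.{u} := by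
  intro p _ d X _ _ _ _ _ b s H
  have hp := (Fact.out : p.Prime)
  let K : Set (Fin d → ℤ_[p]) :=
    {h | (∀ i : Fin d, (i : ℕ) < s → h i = 0) ∧ ∃ i : Fin d, ¬ (p : ℤ_[p]) ∣ h i}
  have hKc : IsCompact K := by
    refine IsClosed.isCompact ?_
    have e1 : K = (⋂ i : Fin d, {h | (i : ℕ) < s → h i = 0}) ∩
        ⋃ i : Fin d, {h : Fin d → ℤ_[p] | 1 ≤ ‖h i‖} := by
      ext h
      simp only [K, Set.mem_ofPred_eq, Set.mem_inter_iff, Set.mem_iInter, Set.mem_iUnion]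
      refine and_congr Iff.rfl (exists_congr fun i => ?_)
      rw [← PadicInt.norm_lt_one_iff_dvd, not_lt]
    rw [e1]
    refine IsClosed.inter (isClosed_iInter fun i => ?_) (isClosed_iUnion_of_finite fun i => ?_)
    · by_cases hi : (i : ℕ) < s
      · simp only [hi, forall_true_left]
        exact isClosed_eq (continuous_apply i) continuous_const
      · simp only [hi, IsEmpty.forall_iff, Set.ofPred_true]
        exact isClosed_univ
    · exact isClosed_le continuous_const ((continuous_apply i).norm)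
  have main : ∃ C n₀ : ℕ, ∀ n ≥ n₀, ∀ h ∈ K, ∀ x, ∃ y z,
      p ^ C • x = b.T h y + Psi b (e0 p d) n z := by
    refine hKc.induction_on
      (p := fun S => ∃ C n₀ : ℕ, ∀ n ≥ n₀, ∀ h ∈ S, ∀ x, ∃ y z,
        p ^ C • x = b.T h y + Psi b (e0 p d) n z) ?_ ?_ ?_ ?_
    · exact ⟨0, 0, fun _ _ h hh => absurd hh (Set.notMem_empty h)⟩
    · rintro S S' hSS ⟨C, n₀, hS⟩
      exact ⟨C, n₀, fun n hn h hh => hS n hn h (hSS hh)⟩
    · rintro S S' ⟨C, n₀, hS⟩ ⟨C', n₀', hS'⟩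
      refine ⟨C + C', n₀ + n₀', fun n hn h hh x => ?_⟩
      rcases hh with hh | hh
      · obtain ⟨y, z, e⟩ := hS n (by omega) h hh (p ^ C' • x)
        exact ⟨y, z, by rw [pow_add, mul_smul, e]⟩
      · obtain ⟨y, z, e⟩ := hS' n (by omega) h hh (p ^ C • x)
        exact ⟨y, z, by rw [add_comm, pow_add, mul_smul, e]⟩
    · rintro h₀ ⟨hs, hu⟩
      have hne : h₀ ≠ 0 := by
        rintro rfl
        obtain ⟨i, hi⟩ := hu
        exact hi (dvd_zero _)
      obtain ⟨i, c, hq⟩ := H.quo h₀ hne (e0 p d)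
      have h1 : ∀ n ≥ c, ∀ x, ∃ y z, p ^ (i + 1) • x = b.T h₀ y + Psi b (e0 p d) n z :=
        fun n hn x => step1 b hW3 (e0 p d) h₀ i c hq n hn x
      refine ⟨{h | h ∈ K ∧ ∀ j, ‖h j - h₀ j‖ ≤ (p : ℝ) ^ (-((i + 1 : ℕ) : ℤ))}, ?_, i + 1, c, ?_⟩
      · refine Filter.inter_mem self_mem_nhdsWithin (mem_nhdsWithin_of_mem_nhds ?_)
        refine (Filter.eventually_all.2 fun j => ?_ : ∀ᶠ h in nhds h₀, ∀ j, ‖h j - h₀ j‖ ≤ (p : ℝ) ^ (-((i + 1 : ℕ) : ℤ)))
        have hpos : (0 : ℝ) < (p : ℝ) ^ (-((i + 1 : ℕ) : ℤ)) := by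
          have : (0 : ℝ) < p := by exact_mod_cast hp.pos
          positivity
        have h4 : ∀ᶠ z in nhds (h₀ j), ‖z - h₀ j‖ ≤ (p : ℝ) ^ (-((i + 1 : ℕ) : ℤ)) := by
          filter_upwards [Metric.closedBall_mem_nhds (h₀ j) hpos] with z hz
          rwa [Metric.mem_closedBall, dist_eq_norm] at hz
        exact (continuous_apply j).continuousAt.eventually h4
      · rintro n hn h ⟨⟨hs', -⟩, hh⟩ x
        have h5 : ∀ j, (p : ℤ_[p]) ^ (i + 1) ∣ h j - h₀ j := by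
          intro j
          rw [← Ideal.mem_span_singleton, ← PadicInt.norm_le_pow_iff_mem_span_pow]
          exact hh j
        choose r hr using h5
        have e : h = h₀ + p ^ (i + 1) • r := by
          funext j
          have h6 : (h₀ + p ^ (i + 1) • r) j = h₀ j + (p : ℤ_[p]) ^ (i + 1) * r j := by
            rw [Pi.add_apply, Pi.smul_apply, nsmul_eq_mul, Nat.cast_pow]
          rw [h6, ← hr j]; ring
        have hr0 : Small b r := by
          rw [H.small]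
          intro j hj
          have h6 := hr j
          rw [hs' j hj, hs j hj, sub_zero] at h6
          have h7 : (p : ℤ_[p]) ^ (i + 1) ≠ 0 := pow_ne_zero _ (by exact_mod_cast hp.ne_zero)
          rcases mul_eq_zero.1 h6.symm with h8 | h8
          · exact absurd h8 h7
          · exact h8
        have hr2 := H.sm2 r hr0
        rw [e]
        exact step2 b (e0 p d) h₀ r (i + 1) n (h1 n hn) hr2 (hSq p d X b r hr2) x
  obtain ⟨C, n₀, hC⟩ := main
  exact ⟨C, n₀, fun n hn h hs hu x => hC n hn h ⟨hs, hu⟩ x⟩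

end

end Pool.Agent.Helper96.Full
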